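import Pool.Agent.Run7.h284.VX.Karp

/-!
# MP_cff830_lc: constant-depth reductions give no hardness of approximation for vertex cover

The problem asks whether `c`-approximation of weighted vertex cover is NP-hard for every `c < 2`.
Hardness is proved by reductions. We consider randomised truth-table reductions from a problem `L`
(for instance 3-satisfiability, or parity) to the approximation of `OPT`: on the input `y` the
reduction produces `Q` weighted graphs, it is told for each of them a number between `OPT` and
`c OPT`, and an arbitrary function `ev` of the `Q` numbers gives the answer, which has to be correct
with probability `2 / 3` for every input and for every such approximation `φ` of `OPT`.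

The graphs have any number of vertices (exponentially many are allowed). Every vertex has a label of
`B` bits computed from the input `y`; the weight of a vertex is an arbitrary function of the vertex
and of its label, and the adjacency of two vertices is an arbitrary function of the two vertices and
of their labels (`Fam`). For example, graphs of bounded degree given by adjacency lists are of this
kind, and so are the FGLSS graphs of probabilistically checkable proofs. The capacity is the sum
of the greatest possible weights of the vertices, and `OPT` is at least the capacity divided by `R`
(`Spread`).

(1) If parity of `n` bits is a projection of `L` and every bit of the labels is computed by a circuit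
of depth at most `d` with at most `2 ^ κ` gates, `n ≤ 2 ^ κ`, then
`n log c ≤ 3 Q R B (72 κ + 24 d + 24) ^ (d + 1)`. So for constant `d` and quasi-polynomial size there
is no such reduction unless `Q R B ≥ n ^ (1 - o(1)) log c`, for any ratio `c > 1`, and even for
`c = 1 + n ^ (- 1 / 2)`.

(2) Parity of `n` bits is a projection of 3-satisfiability with `5 n + 2` clauses and `2 n + 1`
variables, for every encoding of the variables by `l` bits.

(3) On the other hand, for `c < 1 + 1 / (2 m)` the classical reduction from 3-satisfiability with `m`
clauses is of this kind, with `Q = 1`, `R = 3 / 2`, `B = l + 1` and depth `0`. So for constant depth,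
quasi-polynomial size and polylogarithmic `Q R B` the ratios for which there is a reduction from
3-satisfiability with `m = 5 n + 2` clauses are `1 + m ^ (-1 + o(1))`. (Also, with `Q = n` questions or labels of `n` bits, the
evaluation, or the adjacency, may depend on the whole input of parity in an arbitrary way.)

Proof of (1): flipping one bit of the input changes `OPT` at most by the capacity of the vertices whose
label changes. Circuits of bounded depth have small average sensitivity (switching lemma), so for
typical neighbouring inputs the numbers `log OPT` hardly change. The values of `OPT` are rounded up to
a random geometric progression with quotient `c`; most of the rounded values are the same for both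
inputs, although the parities are different.
-/

set_option autoImplicit false

namespace Pool.Agent.Results.MP_cff830_lc.ConstantDepthReductions

open Pool.Agent.H284.VX

/-- **Constant-depth reductions to the approximation of vertex cover.** -/
theorem result :
    (∀ (n d κ Q B : ℕ) (J : Type) (L : (J → Bool) → Bool) (T : Reduction J Q B) (c R : ℝ),
      1 < c → 0 ≤ R → n ≤ 2 ^ κ → ParityProjects n L → T.Solves c L → T.Spread R →
      T.BoundedDepth d κ →
        n * Real.log c ≤ 3 * (Q * R * B * (72 * κ + 24 * d + 24 : ℝ) ^ (d + 1))) ∧
    (∀ (n l : ℕ) (dec : (Fin l → Bool) → Fin (2 * n + 1)), 1 ≤ n → Function.Surjective dec →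
      ParityProjects n (sat3 (K := Fin (5 * n + 2)) dec)) ∧
    (∀ (m l : ℕ) (X : Type) (dec : (Fin l → Bool) → X) (c : ℝ), c * (2 * m) < 2 * m + 1 →
      ∃ T : Reduction (Fin m × Fin 3 × Option (Fin l)) 1 (l + 1),
        T.Solves c (sat3 dec) ∧ T.Spread (3 / 2) ∧ T.BoundedDepth 0 0) := by
  refine ⟨?_, ?_, ?_⟩
  · intro n d κ Q B J L T c R hc hR hn hL hs hS hC
    exact bounded_depth T hc hR hn hL hs hS hC
  · intro n l dec hn hdec
    exact parity_projects_sat3 hn dec hdec
  · intro m l X dec c hc
    refine ⟨karpRed (Fin m) dec, karp_works (K := Fin m) dec ?_⟩
    rw [Fintype.card_fin]
    exact hc

end Pool.Agent.Results.MP_cff830_lc.ConstantDepthReductions
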