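import Pool.Agent.Run7.h625.SQ.VCFin

/-!
# Vertex cover: counting logic with linearly many variables and arbitrary oracles for small questions

Atserias and Dawar proved that formulas of counting logic with `o(n)` variables (in particular
fixed-point logic with counting, and so linear and semidefinite programs of symmetric form) do not
approximate the vertex cover number within a small constant factor. Here the logic is extended by
all Lindstroem quantifiers on small interpreted structures: the formula may interpret a structure
in the graph, with tuples as elements, modulo a definable equivalence relation, with parameters,
arbitrarily nested, and it may ask any question about it (for example the vertex cover number of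
the smaller structure, or an undecidable property), if the number of elements times the length of
the tuples is at most a constant times `n`. So for the approximation of vertex cover within a
factor below `7 / 6` there is no definable Turing reduction to smaller instances, or to anything
else of this size. With `n` in place of the small constant times `n`, everything is definable.

The queries are given semantically (`Query`, `Interp`, `Interp.Defines` in
`Pool/Agent/Run7/h625/SQ/Defs.lean`, `Df` in `Pool/Agent/Run7/h625/SQ/Lin.lean`).

Idea of the proof. The graphs are the graphs of the satisfying assignments of the equations of an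
expanding system with three variables in each equation, adjacent if they contradict each other, for
the homogeneous system and for a right-hand side for which only about one half of the equations can
be satisfied. The positions of the game are related by locally consistent assignments. For an
interpreted structure with `N` elements one takes representatives of all the elements and one
assignment that is locally consistent on all of them; it gives an isomorphism of the interpreted
structures, as each further tuple can be compared with the representatives.
-/

set_option autoImplicit false

namespace Pool.Agent.Results.MP_cff830_lc.SmallOracles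

open Filter Run7.h625.SQ

/-- `CoverLe G t`: some vertex cover of `G` has at most `t` vertices. `Df w s`: the queries
definable with `w` variables in infinitary counting logic with all Lindstroem quantifiers for
interpreted structures of dimension `e` with `N` elements, `N * e ≤ s n`.

1. Pairs of graphs with vertex cover numbers at most `3 k` and at least `(7 / 2 - ρ) k`,
   `k ≥ c n`, which are not distinguished if `w + s n ≤ c n`.
2. No approximation of the vertex cover number within a factor `r < 7 / 6` is definable.
3. If `s n = n` then all properties are definable, with two variables. -/
theorem result :
    (∀ ρ : ℝ, 0 < ρ → ∃ c : ℝ, 0 < c ∧ ∀ᶠ n : ℕ in atTop,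
      ∃ (k : ℕ) (G H : SimpleGraph (Fin n)), c * n ≤ k ∧ 4 * k ≤ n ∧ CoverLe G (3 * k) ∧
        (∀ t, CoverLe H t → (7 / 2 - ρ) * k ≤ t) ∧
        ∀ (w : ℕ) (s : ℕ → ℕ), (w : ℝ) + s n ≤ c * n → ∀ q, Df w s Empty q →
          (q (Fin n) G Empty.elim ↔ q (Fin n) H Empty.elim)) ∧
    (∀ r : ℝ, r < 7 / 6 → ∃ c : ℝ, 0 < c ∧ ∀ᶠ n : ℕ in atTop,
      ∀ F : SimpleGraph (Fin n) → ℕ, (∀ G, CoverLe G (F G)) →
        (∀ G t, CoverLe G t → (F G : ℝ) ≤ r * t) →
        ∀ (w : ℕ) (s : ℕ → ℕ), (w : ℝ) + s n ≤ c * n →
          ∃ t : ℕ, ∀ q, Df w s Empty q →
            ∃ G : SimpleGraph (Fin n), ¬ (q (Fin n) G Empty.elim ↔ F G ≤ t)) ∧
    (∀ P : ∀ n : ℕ, SimpleGraph (Fin n) → Prop,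
      (∀ (n : ℕ) (G G' : SimpleGraph (Fin n)), Nonempty (G ≃g G') → P n G → P n G') →
      ∃ q, Df 2 (fun n => n) Empty q ∧
        ∀ (n : ℕ) (G : SimpleGraph (Fin n)), q (Fin n) G Empty.elim ↔ P n G) :=
  ⟨vc_pair, vc_approx, all_def⟩

end Pool.Agent.Results.MP_cff830_lc.SmallOracles
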