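import Pool.Agent.Run7.h156.VC.Upper

/-!
# Weighted vertex cover and read-once tensor networks, with cancellations: the ratio two

The definitions used in the statement are in `Pool/Agent/Run7/h156/VC/Net.lean` (`WNet`, `bits`) and
`Pool/Agent/Run7/h156/VC/Mix.lean` (`Yes`, `No`).

A tree tensor network `WNet K n W` gets a graph with the vertices `0, …, n - 1` and weights of the
vertices. A leaf reads one pair of vertices (it has a vector in `K ^ W` for edge and one for no
edge) or is an arbitrary vector valued function of all the weights; an inner node combines the
vectors of its two children by an arbitrary bilinear map. The input is accepted if a linear form of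
the vector of the root is not zero. The field `K` is arbitrary, so there may be cancellations, and
the tree and the order of the pairs are arbitrary; if every right child is a leaf then this is a
matrix product (for example a deterministic, nondeterministic, parity or weighted ordered read-once
branching program). The bond dimension is `card W`.

Result: the problem is to tell the weighted graphs with a vertex cover of at most one half of the
total weight from those in which every vertex cover has more than `1 - 1 / g` of the total weight;
every approximation of the least weight of a vertex cover with ratio at most `2 - 2 / g` solves it.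

(1) If all networks of a random network read every pair at most once and never accept a graph of the
second kind, and if every graph of the first kind is accepted with probability at least `2 ^ (- μ)`,
all this for the graphs with weights one only, then one of them has bond dimension at least
`2 ^ (n / (2400 g ^ 3 (log g + 1)) - μ)`. So every constant ratio less than 2 needs exponential bond
dimension.

(2) Conversely, for `g = 2 k` a linear network over `ℚ` which reads every pair once and has bond
dimension at most `k 2 ^ (n / k + 1)` solves the problem for all weights.

Idea of the proof of (1). For a set `A` of at least `n / 2` vertices take all pairs which are not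
inside `A`. The nodes of the tree give a partition of the pairs into `t = O(g ^ 2 log ^ 2 g)` parts
of at most `2 y ^ 2` pairs, `y = n / O(g log g)`, such that the rank for each part is at most the
cube of the bond dimension (`Pool/Agent/TH700/PA`). The mixture has on the `j`-th part the pairs of
the `j`-th of `t` random sets. If a set `J` of `m = n / g` vertices is independent in the mixture,
then every `u ∈ J` is in the `j`-th set for all parts `j` which contain a pair `uv`, `v ∈ J`. There
are `m (m - 1)` ordered pairs in `J`, and if `s` vertices of `J` are in pairs of the `j`-th part,
then there are at most `min (s ^ 2, 4 y ^ 2) ≤ 2 y s` of them; so at least `m (m - 1) / (2 y)`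
conditions hold, and the expected number of such sets `J` is exponentially small.
-/

set_option autoImplicit false

open Run7.h156.VC

namespace Pool.Agent.Results.MP_cff830_lc.TensorNetworks

theorem result :
    (∀ g n : ℕ, 1 ≤ g → 15000 * g ^ 3 * (Nat.log 2 g + 1) ^ 2 ≤ n →
      ∀ (μ : ℕ) (R : Type) [Fintype R] [Nonempty R] (K W : R → Type) [∀ ρ, Field (K ρ)]
        [∀ ρ, Fintype (W ρ)] (T : ∀ ρ, WNet (K ρ) n (W ρ)) (a : ∀ ρ, W ρ → K ρ),
        (∀ ρ e, (T ρ).reads e ≤ 1) →
        (∀ ρ G, No g G (fun _ => 1) → (T ρ).value (a ρ) (bits G) (fun _ => 1) = 0) →
        (∀ G, Yes G (fun _ => 1) →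
          Nat.card R ≤ 2 ^ μ * Nat.card {ρ // (T ρ).value (a ρ) (bits G) (fun _ => 1) ≠ 0}) →
        ∃ ρ, 2 ^ n ≤ (2 ^ μ * Fintype.card (W ρ)) ^ (2400 * g ^ 3 * (Nat.log 2 g + 1))) ∧
    (∀ k n : ℕ, 1 ≤ k → 1 ≤ n → ∃ (W : Type) (_ : Fintype W) (T : WNet ℚ n W) (a : W → ℚ),
      Fintype.card W ≤ k * 2 ^ (n / k + 1) ∧ T.Linear ∧ (∀ e, T.reads e = 1) ∧
      ∀ (G : SimpleGraph (Fin n)) (w : Fin n → ℕ),
        (Yes G w → 0 < T.value a (bits G) w) ∧
        (No (2 * k) G w → T.value a (bits G) w = 0)) :=
  ⟨fun _ _ hg hn μ R _ _ K W _ _ T a h1 hno hyes => lower hg hn μ R K W T a h1 hno hyes,
    fun _ _ hk hn => upper hk hn⟩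

end Pool.Agent.Results.MP_cff830_lc.TensorNetworks
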