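import Pool.Agent.Run7.h284.VX.Td

/-!
# MP_cff830_lc: reductions computed by threshold gates on top of constant-depth circuits

The model is the one of `ConstantDepthReductions` (same folder): randomised truth-table reductions with
`Q` questions from a problem `L` to the approximation of the least weight `OPT` of a vertex cover
within the factor `c`; each vertex of the graphs has a label of `B` bits computed from the input, the
weight of a vertex is an arbitrary function of its label and the adjacency of two vertices is an
arbitrary function of their two labels; `OPT` is at least the capacity divided by `R`.

Here every bit of the labels is computed by a threshold gate with arbitrary real weights, whose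
inputs are arbitrarily many bits of the input and gates of a circuit of depth `d` with at most `n ^ a`
AND, OR and NOT gates. (As weights and adjacency are arbitrary functions of the labels, all functions
of `B` such threshold gates are allowed.) This class contains majority, which needs exponential size
in constant depth.

Result: for all `d` and `a` there is `δ > 0` such that for all large `n` the following holds. If parity
of `n` bits is a projection of `L` then every such reduction has `n ^ δ log c ≤ 3 Q R B`. So for no
constant `c > 1`, and not even for `c = 1 + n ^ (-δ / 2)`, there is such a reduction with
`Q R B = n ^ o(1)`. Parity of `n` bits is a projection of 3-satisfiability with `5 n + 2` clauses.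

Proof: by random restrictions the gates become decision trees of constant depth, so that a bit of the
label becomes a polynomial threshold function of constant degree `s`. Its average sensitivity on `m`
bits is at most `2 m ^ (1 - 2 ^ (-s))` (Diakonikolas, Raghavendra, Servedio, Tan; Harsha, Klivans, Meka).
The rest of the proof is the one of `ConstantDepthReductions`.
-/

set_option autoImplicit false

namespace Pool.Agent.Results.MP_cff830_lc.ThresholdReductions

open Filter Pool.Agent.H284.VX

/-- **Reductions to the approximation of vertex cover computed by threshold gates on top of
constant-depth circuits.** -/
theorem result :
    (∀ d a : ℕ, ∃ δ : ℝ, 0 < δ ∧ ∀ᶠ n : ℕ in atTop,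
      ∀ (J : Type) (L : (J → Bool) → Bool) (Q B : ℕ) (T : Reduction J Q B) (c R : ℝ),
        1 < c → 0 ≤ R → ParityProjects n L → T.Solves c L → T.Spread R →
        T.ThresholdOfDepth d (n ^ a) → (n : ℝ) ^ δ * Real.log c ≤ 3 * (Q * R * B)) ∧
    (∀ (n l : ℕ) (dec : (Fin l → Bool) → Fin (2 * n + 1)), 1 ≤ n → Function.Surjective dec →
      ParityProjects n (sat3 (K := Fin (5 * n + 2)) dec)) :=
  ⟨threshold_depth, fun _ _ dec hn hdec => parity_projects_sat3 hn dec hdec⟩

end Pool.Agent.Results.MP_cff830_lc.ThresholdReductions
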